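import Pool.Agent.T9h34.QE.Spec
import Pool.Agent.T9h71.QC.ExchB

/-!
# One shape, sharp at every density (piece F1)
-/

set_option autoImplicit false

namespace Pool.Agent.T9h35.QE

open Finset Pool.Agent.T9h34.Q Pool.Agent.T9h16.QL Pool.Agent.T9h71.QC Pool.Agent.T9h34.QE
open Pool.Agent.PC34 (prob)

theorem stShapeE (hCov : StCover) (hExt : StExtraE) : StShapeE := by
  classical
  intro V _ _ _ L a₀ B d m j a h1a haL h hh δ F A hF hA hE
  obtain ⟨C, par, hAC, hpar, hleaf⟩ := hCov j F A hF hA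
  refine ⟨C, par, fun w hw => (hpar w hw).2, ?_⟩
  obtain ⟨N, hN⟩ : ∃ N, N = (F \ leafS C par).card := ⟨_, rfl⟩
  rw [← hN]
  set Lb : Type := Sym2 V → Fin L with hLb
  set Q : Type := (Ix B d m → Packet V B d m) × (V → Ix B d m → V) with hQ
  set CS : Lb → (Fin j → V) → Q → Prop := fun lab φ q =>
    Function.Injective φ ∧ CritS h (low lab a₀, q) a φ C A par with hCS
  set CR : Lb → (Fin j → V) → Q → Prop := fun lab φ q =>
    Function.Injective φ ∧ Crit h (low lab a₀, q) a (F.image (Sym2.map φ)) (A.image φ)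
      (univ.image φ) with hCR
  have h1 : ∀ (φ : Fin j → V) (q : Q), a₀ ^ N * Nat.card {lab // CR lab φ q} ≤
      (L - a₀) ^ N * Nat.card {lab // CS lab φ q} := by
    intro φ q
    by_cases hφ : Function.Injective φ
    · have h2 := hExt V L a₀ B d m j a haL h hh φ hφ F C A par hAC hpar q.1 q.2
      rw [← hN] at h2
      refine le_trans (Nat.mul_le_mul_left _ (card_sub_mono fun G hG => ?_))
        (h2.trans (Nat.mul_le_mul_left _ (card_sub_mono fun G hG => ?_)))
      · exact hG.2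
      · exact ⟨hφ, hG⟩
    · have : IsEmpty {lab // CR lab φ q} := ⟨fun G => hφ G.2.1⟩
      rw [Nat.card_of_isEmpty, mul_zero]
      exact Nat.zero_le _
  have h3 : ∀ Θ : Lb → (Fin j → V) → Q → Prop,
      Nat.card {x : (Fin j → V) × EnvL V L B d m // Θ x.2.1 x.1 x.2.2} =
      ∑ φ : Fin j → V, ∑ q : Q, Nat.card {lab // Θ lab φ q} := by
    intro Θ
    rw [card_sub_prod (fun (φ : Fin j → V) (y : EnvL V L B d m) => Θ y.1 φ y.2)]
    refine Finset.sum_congr rfl fun φ _ => ?_
    rw [← card_sub_prod (fun (q : Q) (lab : Lb) => Θ lab φ q)]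
    exact card_swap (fun (lab : Lb) (q : Q) => Θ lab φ q)
  have h4 : a₀ ^ N * Nat.card {x : (Fin j → V) × EnvL V L B d m // CR x.2.1 x.1 x.2.2} ≤
      (L - a₀) ^ N * Nat.card {x : (Fin j → V) × EnvL V L B d m // CS x.2.1 x.1 x.2.2} := by
    rw [h3 CR, h3 CS, Finset.mul_sum, Finset.mul_sum]
    refine Finset.sum_le_sum fun φ _ => ?_
    rw [Finset.mul_sum, Finset.mul_sum]
    exact Finset.sum_le_sum fun q _ => h1 φ q
  have h5 := hE C par hAC (fun w hw => (hpar w hw).1) hleaf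
  have hnu0 : 0 ≤ nu L a₀ := by
    unfold nu
    have h7 : (0 : ℝ) < a₀ := by exact_mod_cast h1a
    rw [sub_nonneg, le_div_iff₀ h7, one_mul]
    exact_mod_cast haL
  have ha0 : (0 : ℝ) < (a₀ : ℝ) ^ N := by
    have : (0 : ℝ) < a₀ := by exact_mod_cast h1a
    positivity
  have h6 : prob (fun x : (Fin j → V) × EnvL V L B d m =>
      Function.Injective x.1 ∧ Crit h (toEnv a₀ x.2) a (F.image (Sym2.map x.1)) (A.image x.1)
        (univ.image x.1)) ≤ nu L a₀ ^ N * prob (fun x : (Fin j → V) × EnvL V L B d m =>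
        Function.Injective x.1 ∧ CritS h (toEnv a₀ x.2) a x.1 C A par) := by
    rw [prob_card, prob_card, ← mul_div_assoc]
    refine div_le_div_of_nonneg_right ?_ (Nat.cast_nonneg _)
    have ha1 : (a₀ : ℝ) ≠ 0 := by
      have : (0 : ℝ) < a₀ := by exact_mod_cast h1a
      exact this.ne'
    have hnu : nu L a₀ = ((L - a₀ : ℕ) : ℝ) / a₀ := by
      unfold nu
      rw [Nat.cast_sub haL]
      field_simp
    rw [hnu, div_pow, div_mul_eq_mul_div, le_div_iff₀ ha0, mul_comm]
    exact_mod_cast h4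
  calc ((m : ℝ) + 1) ^ j * prob (fun x : (Fin j → V) × EnvL V L B d m =>
      Function.Injective x.1 ∧ Crit h (toEnv a₀ x.2) a (F.image (Sym2.map x.1)) (A.image x.1)
        (univ.image x.1))
      ≤ ((m : ℝ) + 1) ^ j * (nu L a₀ ^ N * prob (fun x : (Fin j → V) ×
        EnvL V L B d m => Function.Injective x.1 ∧ CritS h (toEnv a₀ x.2) a x.1 C A par)) :=
        mul_le_mul_of_nonneg_left h6 (by positivity)
    _ = nu L a₀ ^ N * (((m : ℝ) + 1) ^ j * prob (fun x : (Fin j → V) ×
        EnvL V L B d m => Function.Injective x.1 ∧ CritS h (toEnv a₀ x.2) a x.1 C A par)) := by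
        ring
    _ ≤ nu L a₀ ^ N * δ := mul_le_mul_of_nonneg_left h5 (pow_nonneg hnu0 _)

end Pool.Agent.T9h35.QE
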